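import Pool.Agent.H76K.B

/-!
# The resultant of `G(z) G(w) - H(z) H(w)` and `G'(z) G'(w) - K(z) K(w)`
-/

set_option autoImplicit false
set_option linter.all false

open Polynomial

namespace Pool.Agent.H41K

/-- `G(z) G(w) - H(z) H(w)`, a polynomial in `w` with coefficients in `ℤ[z]` -/
noncomputable def bi (G H : ℤ[X]) : ℤ[X][X] := C G * G.map C - C H * H.map C

/-- the resultant with respect to `w` -/
noncomputable def Rs (m n : ℕ) (G H G' K : ℤ[X]) : ℤ[X] := resultant (bi G H) (bi G' K) m n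

theorem bi_natDegree {G H : ℤ[X]} {m : ℕ} (hG : G.natDegree ≤ m) (hH : H.natDegree ≤ m) :
    (bi G H).natDegree ≤ m := by
  unfold bi
  refine (natDegree_sub_le _ _).trans (max_le ?_ ?_)
  · exact (natDegree_C_mul_le _ _).trans (natDegree_map_le.trans hG)
  · exact (natDegree_C_mul_le _ _).trans (natDegree_map_le.trans hH)

theorem bi_coeff {G H : ℤ[X]} {m : ℕ} (hG : G.natDegree ≤ m) (hH : H.natDegree ≤ m) (k : ℕ) :
    ((bi G H).coeff k).natDegree ≤ m := by
  unfold bi
  rw [coeff_sub, coeff_C_mul, coeff_map, coeff_C_mul, coeff_map]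
  refine (natDegree_sub_le _ _).trans (max_le ?_ ?_)
  · exact (natDegree_mul_C_le _ _).trans hG
  · exact (natDegree_mul_C_le _ _).trans hH

theorem Rs_natDegree {m n : ℕ} {G H G' K : ℤ[X]} (h1 : G.natDegree ≤ m) (h2 : H.natDegree ≤ m)
    (h3 : G'.natDegree ≤ n) (h4 : K.natDegree ≤ n) :
    (Rs m n G H G' K).natDegree ≤ 2 * (m * n) := by
  unfold Rs resultant
  rw [Matrix.det_apply]
  refine natDegree_sum_le_of_forall_le _ _ fun σ _ => ?_
  have h0 : (Equiv.Perm.sign σ • ∏ i, sylvester (bi G H) (bi G' K) m n (σ i) i).natDegree ≤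
      (∏ i, sylvester (bi G H) (bi G' K) m n (σ i) i).natDegree := by
    rcases Int.units_eq_one_or (Equiv.Perm.sign σ) with h | h <;> rw [h] <;> simp
  refine h0.trans ?_
  refine (natDegree_prod_le _ _).trans ?_
  rw [Fin.sum_univ_add]
  have g1 : ∀ j : Fin m, (sylvester (bi G H) (bi G' K) m n
      (σ (Fin.castAdd n j)) (Fin.castAdd n j)).natDegree ≤ n := by
    intro j
    simp only [sylvester, Matrix.of_apply, Fin.addCases_left]
    split_ifs
    · exact bi_coeff h3 h4 _
    · simp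
  have g2 : ∀ j : Fin n, (sylvester (bi G H) (bi G' K) m n
      (σ (Fin.natAdd m j)) (Fin.natAdd m j)).natDegree ≤ m := by
    intro j
    simp only [sylvester, Matrix.of_apply, Fin.addCases_right]
    split_ifs
    · exact bi_coeff h1 h2 _
    · simp
  refine (Nat.add_le_add (Finset.sum_le_sum fun j _ => g1 j) (Finset.sum_le_sum fun j _ => g2 j)).trans ?_
  simp only [Finset.sum_const, Finset.card_univ, Fintype.card_fin, smul_eq_mul]
  rw [mul_comm n m, two_mul]

/-- a common solution gives a root of the resultant -/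
theorem Rs_root {A : Type} [CommRing A] {m n : ℕ} {G H G' K : ℤ[X]} (hm : 0 < m)
    (d1 : G.natDegree ≤ m) (d2 : H.natDegree ≤ m) (d3 : G'.natDegree ≤ n) (d4 : K.natDegree ≤ n)
    {z w : A} (h1 : aeval z G * aeval w G = aeval z H * aeval w H)
    (h2 : aeval z G' * aeval w G' = aeval z K * aeval w K) :
    aeval z (Rs m n G H G' K) = 0 := by
  obtain ⟨p, q, -, -, e⟩ := exists_mul_add_mul_eq_C_resultant (m := m) (n := n)
    (bi G H) (bi G' K) (bi_natDegree d1 d2) (bi_natDegree d3 d4) (Or.inl hm.ne')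
  let φ : ℤ[X] →+* A := (aeval z : ℤ[X] →ₐ[ℤ] A).toRingHom
  have hφ : ∀ r, φ r = aeval z r := fun r => rfl
  have e1 : ∀ r : ℤ[X], eval₂ φ w (r.map C) = aeval w r := by
    intro r
    rw [eval₂_map, aeval_def]
    congr 1
    ext a
    simp [hφ]
  have key : ∀ r s : ℤ[X], eval₂ φ w (bi r s) = aeval z r * aeval w r - aeval z s * aeval w s := by
    intro r s
    unfold bi
    rw [eval₂_sub, eval₂_mul, eval₂_mul, eval₂_C, eval₂_C, e1, e1, hφ, hφ]
  have e2 := congrArg (eval₂ φ w) e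
  rw [eval₂_add, eval₂_mul, eval₂_mul, key, key, h1, h2, sub_self, sub_self, zero_mul, zero_mul,
    add_zero, eval₂_C, hφ] at e2
  exact e2.symm

/-- the resultant is not zero -/
theorem Rs_ne {m n : ℕ} {G H G' K : ℤ[X]} (hH : H.Monic) (hK : K.Monic) (hm : H.natDegree = m)
    (hn : K.natDegree = n) (hc : ∀ z : ℂ, aeval z H = 0 → aeval z K ≠ 0) {α : ℂ}
    (h1 : aeval α G = 0) (h2 : aeval α G' = 0) (h3 : aeval α H ≠ 0) (h4 : aeval α K ≠ 0) :
    Rs m n G H G' K ≠ 0 := by
  intro h0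
  let φ : ℤ[X] →+* ℂ := (aeval α : ℤ[X] →ₐ[ℤ] ℂ).toRingHom
  have hφ : ∀ r, φ r = aeval α r := fun r => rfl
  have key : ∀ r s : ℤ[X], (bi r s).map φ = C (aeval α r) * r.map (Int.castRingHom ℂ) -
      C (aeval α s) * s.map (Int.castRingHom ℂ) := by
    intro r s
    have e1 : ∀ r : ℤ[X], (r.map C).map φ = r.map (Int.castRingHom ℂ) := by
      intro r
      rw [Polynomial.map_map]
      congr 1
      ext a
      simp [hφ]
    unfold bi
    rw [Polynomial.map_sub, Polynomial.map_mul, Polynomial.map_mul, map_C, map_C, e1, e1, hφ, hφ]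
  have e := resultant_map_map (bi G H) (bi G' K) m n φ
  change _ = φ (Rs m n G H G' K) at e
  rw [h0, map_zero, key G H, key G' K, h1, h2, C_0, zero_mul, zero_sub, zero_mul, zero_sub,
    ← neg_mul, ← neg_mul, ← C_neg, ← C_neg, resultant_C_mul_left, resultant_C_mul_right] at e
  have h5 : (-(aeval α H)) ≠ 0 := neg_ne_zero.2 h3
  have h6 : (-(aeval α K)) ≠ 0 := neg_ne_zero.2 h4
  have hcop : IsCoprime (H.map (Int.castRingHom ℂ)) (K.map (Int.castRingHom ℂ)) := by
    rw [isCoprime_iff_aeval_ne_zero_of_isAlgClosed ℂ ℂ]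
    intro a
    have t1 : ∀ q : ℤ[X], aeval a (q.map (Int.castRingHom ℂ)) = aeval a q := fun q =>
      aeval_map_algebraMap ℂ a q
    rw [t1, t1]
    by_cases h : aeval a H = 0
    · exact Or.inr (hc a h)
    · exact Or.inl h
  have h7 := resultant_ne_zero _ _ hcop
  rw [hH.natDegree_map, hK.natDegree_map, hm, hn] at h7
  have h8 : (-(aeval α H)) ^ n ≠ 0 := pow_ne_zero _ h5
  have h9 : (-(aeval α K)) ^ m ≠ 0 := pow_ne_zero _ h6
  exact (mul_ne_zero h8 (mul_ne_zero h9 h7)) e

end Pool.Agent.H41K
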