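import Pool.Agent.H41K.A

/-!
# Points of level one and norms
-/

set_option autoImplicit false
set_option linter.all false

open Polynomial

namespace Pool.Agent.H41K

open Pool.Agent.N874.WG Pool.Agent.H76K

/-- the value of the homogenization -/
noncomputable def hom {R : Type} [CommRing R] (g : ℤ[X]) (x y : R) : R :=
  ∑ i ∈ Finset.range (g.natDegree + 1), (g.coeff i : R) * x ^ i * y ^ (g.natDegree - i)

theorem hom_mul {R : Type} [CommRing R] (g : ℤ[X]) (t y : R) :
    hom g (t * y) y = y ^ g.natDegree * aeval t g := by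
  unfold hom
  rw [aeval_eq_sum_range, Finset.mul_sum]
  refine Finset.sum_congr rfl fun i hi => ?_
  have h : i + (g.natDegree - i) = g.natDegree := by
    have := Finset.mem_range.1 hi
    omega
  have e : y ^ g.natDegree = y ^ i * y ^ (g.natDegree - i) := by rw [← pow_add, h]
  rw [e, mul_pow, zsmul_eq_mul]
  ring

theorem hom_map {R S : Type} [CommRing R] [CommRing S] (φ : R →+* S) (g : ℤ[X]) (x y : R) :
    φ (hom g x y) = hom g (φ x) (φ y) := by
  unfold hom
  rw [map_sum]
  refine Finset.sum_congr rfl fun i _ => ?_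
  rw [map_mul, map_mul, map_pow, map_pow, map_intCast]

theorem hom_zero {R : Type} [CommRing R] {g : ℤ[X]} (hg : g.Monic) (x : R) :
    hom g x 0 = x ^ g.natDegree := by
  unfold hom
  rw [Finset.sum_eq_single g.natDegree]
  · rw [hg.coeff_natDegree, Nat.sub_self, pow_zero]
    simp
  · intro i hi hne
    have := Finset.mem_range.1 hi
    rw [zero_pow (by omega), mul_zero]
  · intro h
    exact absurd (Finset.mem_range.2 (Nat.lt_succ_self _)) h

section padic

variable {p : ℕ} [Fact p.Prime]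

theorem det_hom {d : ℕ} (B : Matrix (Fin d) (Fin d) ℤ) (x y : ℤ_[p]) :
    (Matrix.scalar (Fin d) x - y • B.map (Int.castRingHom ℤ_[p])).det = hom B.charpoly x y := by
  have hd : B.charpoly.natDegree = d := by
    rw [Matrix.charpoly_natDegree_eq_dim, Fintype.card_fin]
  by_cases hy : y = 0
  · subst hy
    rw [zero_smul, sub_zero, hom_zero (Matrix.charpoly_monic B), hd]
    simp
  · let ψ : ℤ_[p] →+* ℚ_[p] := PadicInt.Coe.ringHom
    have hinj : Function.Injective ψ := fun a b hab => PadicInt.ext hab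
    apply hinj
    have hy' : ψ y ≠ 0 := fun h => hy (hinj (by rw [h, map_zero]))
    rw [hom_map, RingHom.map_det]
    let B' : Matrix (Fin d) (Fin d) ℚ_[p] := B.map (Int.castRingHom ℚ_[p])
    have e1 : ψ.mapMatrix (Matrix.scalar (Fin d) x - y • B.map (Int.castRingHom ℤ_[p])) =
        ψ y • (Matrix.scalar (Fin d) (ψ x / ψ y) - B') := by
      ext i j
      by_cases hij : i = j
      · subst hij
        simp only [RingHom.mapMatrix_apply, Matrix.map_apply, Matrix.sub_apply, Matrix.smul_apply,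
          Matrix.scalar_apply, Matrix.diagonal_apply_eq, smul_eq_mul, map_sub, map_mul, B']
        rw [mul_sub, mul_div_cancel₀ _ hy']
        simp
      · simp only [RingHom.mapMatrix_apply, Matrix.map_apply, Matrix.sub_apply, Matrix.smul_apply,
          Matrix.scalar_apply, Matrix.diagonal_apply_ne _ hij, smul_eq_mul, map_sub, map_mul, B',
          map_zero, zero_sub, mul_neg]
        simp
    rw [e1, Matrix.det_smul, ← Matrix.eval_charpoly, Fintype.card_fin]
    have e2 : B'.charpoly = B.charpoly.map (Int.castRingHom ℚ_[p]) := Matrix.charpoly_map B _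
    have e3 : hom B.charpoly (ψ x) (ψ y) = hom B.charpoly (ψ x / ψ y * ψ y) (ψ y) := by
      rw [div_mul_cancel₀ _ hy']
    rw [e3, hom_mul, hd, e2, eval_map]
    rfl

theorem norm_step (f : ℤ[X]) (hf : f.Monic) (x y s : ℤ_[p]) (n k : ℕ)
    (u v a : ℤ[X]) (huv : u * v = 1 + f * a) (b c : ℤ_[p][X])
    (h : C s * (C x - C y * X) ^ n = toP p u + toP p f * b + C ((p : ℤ_[p]) ^ k) * c) :
    PadicInt.toZModPow k ((s ^ f.natDegree * hom f x y ^ n) ^ 2) = 1 := by
  obtain ⟨d, B, rfl⟩ := exists_companion f hf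
  have hd : B.charpoly.natDegree = d := by
    rw [Matrix.charpoly_natDegree_eq_dim, Fintype.card_fin]
  let φ : ℤ →+* ℤ_[p] := Int.castRingHom ℤ_[p]
  let B' : Matrix (Fin d) (Fin d) ℤ_[p] := B.map φ
  have hB' : B'.charpoly = toP p B.charpoly := Matrix.charpoly_map B φ
  have hu : aeval B u * aeval B v = 1 := by
    rw [← map_mul, huv, map_add, map_mul, map_one, Matrix.aeval_self_charpoly, zero_mul, add_zero]
  have hdet : (aeval B u).det = 1 ∨ (aeval B u).det = -1 := by
    rw [← Int.isUnit_iff]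
    refine IsUnit.of_mul_eq_one (aeval B v).det ?_
    rw [← Matrix.det_mul, hu, Matrix.det_one]
  have h1 : aeval B' (C x - C y * X) = Matrix.scalar _ x - y • B' := by
    rw [map_sub, map_mul, aeval_C, aeval_C, aeval_X, Algebra.smul_def]
    rfl
  have h2 : (aeval B' (C x - C y * X)).det = hom B.charpoly x y := by
    rw [h1]
    exact det_hom B x y
  have h3 : aeval B' (toP p u) = (aeval B u).map φ := by
    have e := Polynomial.map_aeval_eq_aeval_map (S := Matrix (Fin d) (Fin d) ℤ)
      (T := ℤ_[p]) (U := Matrix (Fin d) (Fin d) ℤ_[p]) (φ := φ)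
      (ψ := φ.mapMatrix) (by
        ext x
        · simp [Matrix.algebraMap_matrix_apply]) u B
    exact e.symm
  have h4 : aeval B' (C s * (C x - C y * X) ^ n) =
      (aeval B u).map φ + ((p : ℤ_[p]) ^ k) • aeval B' c := by
    rw [h, map_add, map_add, map_mul, map_mul, h3, aeval_C]
    have : aeval B' (toP p B.charpoly) = 0 := by
      rw [← hB']
      exact Matrix.aeval_self_charpoly B'
    rw [this, zero_mul, add_zero, Algebra.smul_def]
  have h5 : s ^ B.charpoly.natDegree * hom B.charpoly x y ^ n =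
      ((aeval B u).map φ + ((p : ℤ_[p]) ^ k) • aeval B' c).det := by
    rw [← h4, map_mul, map_pow, aeval_C, Matrix.det_mul, Matrix.det_pow, h2, hd]
    congr 1
    rw [Matrix.algebraMap_eq_diagonal]
    simp
  have h6 : PadicInt.toZModPow k (s ^ B.charpoly.natDegree * hom B.charpoly x y ^ n) =
      ((aeval B u).det : ZMod (p ^ k)) := by
    rw [h5, RingHom.map_det]
    have e : (PadicInt.toZModPow k).mapMatrix ((aeval B u).map φ + ((p : ℤ_[p]) ^ k) • aeval B' c) =
        (Int.castRingHom (ZMod (p ^ k))).mapMatrix (aeval B u) := by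
      ext i j
      simp only [RingHom.mapMatrix_apply, Matrix.map_apply, Matrix.add_apply, Matrix.smul_apply,
        smul_eq_mul, map_add, map_mul, map_pow, map_natCast]
      have : ((p : ZMod (p ^ k)) ^ k) = 0 := by
        rw [← Nat.cast_pow, ZMod.natCast_self]
      rw [this, zero_mul, add_zero]
      simp [φ]
    rw [e, ← RingHom.map_det]
    simp
  rw [map_pow, h6]
  rcases hdet with e | e <;> rw [e] <;> simp

/-- the approximation condition -/
def Approx (p : ℕ) [Fact p.Prime] (f : ℤ[X]) (P : ℤ_[p][X]) : Prop :=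
  ∀ k : ℕ, ∃ u : ℤ[X], (∃ v a : ℤ[X], u * v = 1 + f * a) ∧ ∃ b c : ℤ_[p][X],
    P = toP p u + toP p f * b + C ((p : ℤ_[p]) ^ k) * c

theorem Approx.dvd {f g : ℤ[X]} {P : ℤ_[p][X]} (h : Approx p f P) (hgf : g ∣ f) :
    Approx p g P := by
  obtain ⟨q, rfl⟩ := hgf
  intro k
  obtain ⟨u, ⟨v, a, huv⟩, b, c, hk⟩ := h k
  refine ⟨u, ⟨v, q * a, by rw [huv]; ring⟩, toP p q * b, c, ?_⟩
  rw [hk, toP, toP, toP, Polynomial.map_mul]
  ring

theorem hom_pow {f : ℤ[X]} (hf : f.Monic) {x y s : ℤ_[p]} {n : ℕ}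
    (h : Approx p f (C s * (C x - C y * X) ^ n)) :
    s ^ (2 * f.natDegree) * hom f x y ^ (2 * n) = 1 := by
  have h1 : (s ^ f.natDegree * hom f x y ^ n) ^ 2 = 1 := by
    rw [← PadicInt.ext_of_toZModPow]
    intro k
    obtain ⟨u, ⟨v, a, huv⟩, b, c, hk⟩ := h k
    rw [map_one]
    exact norm_step f hf x y s n k u v a huv b c hk
  rw [← h1]
  ring

/-- the values of two divisors -/
theorem rel {f g h : ℤ[X]} (hg : g.Monic) (hgf : g ∣ f) (hh : h.Monic) (hhf : h ∣ f)
    {x y s : ℤ_[p]} {n : ℕ} (hs : IsUnit s) (ha : Approx p f (C s * (C x - C y * X) ^ n)) :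
    hom g x y ^ (2 * n * h.natDegree) = hom h x y ^ (2 * n * g.natDegree) := by
  have h1 := hom_pow hg (ha.dvd hgf)
  have h2 := hom_pow hh (ha.dvd hhf)
  have h3 : (s ^ (2 * g.natDegree) * hom g x y ^ (2 * n)) ^ h.natDegree =
      (s ^ (2 * h.natDegree) * hom h x y ^ (2 * n)) ^ g.natDegree := by
    rw [h1, h2, one_pow, one_pow]
  rw [mul_pow, mul_pow, ← pow_mul, ← pow_mul, ← pow_mul, ← pow_mul] at h3
  have h4 : 2 * g.natDegree * h.natDegree = 2 * h.natDegree * g.natDegree := by ring
  rw [h4] at h3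
  exact (hs.pow (2 * h.natDegree * g.natDegree)).mul_left_cancel h3

end padic

/-- an integral point is weakly global -/
theorem unit_int (f : ℤ[X]) (x y : ℤ) : ∃ v : ℤ[X],
    (C x - C y * X) * v = C (hom f x y) - C (y ^ f.natDegree) * f := by
  have h1 : (C x - C y * X : ℤ[X]) ∣ ∑ i ∈ Finset.range (f.natDegree + 1),
      C (f.coeff i) * C (y ^ (f.natDegree - i)) * ((C x) ^ i - (C y * X) ^ i) :=
    Finset.dvd_sum fun i _ => Dvd.dvd.mul_left (sub_dvd_pow_sub_pow _ _ i) _
  obtain ⟨v, hv⟩ := h1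
  refine ⟨v, ?_⟩
  rw [← hv]
  have h2 : C (hom f x y) = ∑ i ∈ Finset.range (f.natDegree + 1),
      C (f.coeff i) * C (y ^ (f.natDegree - i)) * ((C x) ^ i : ℤ[X]) := by
    unfold hom
    rw [map_sum]
    refine Finset.sum_congr rfl fun i _ => ?_
    simp only [C_mul, C_pow, Int.cast_id]
    ring
  have h3 : C (y ^ f.natDegree) * f = ∑ i ∈ Finset.range (f.natDegree + 1),
      C (f.coeff i) * C (y ^ (f.natDegree - i)) * ((C y * X) ^ i : ℤ[X]) := by
    conv_lhs => rw [f.as_sum_range_C_mul_X_pow]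
    rw [Finset.mul_sum]
    refine Finset.sum_congr rfl fun i hi => ?_
    have hd : (∑ i ∈ Finset.range (f.natDegree + 1), C (f.coeff i) * X ^ i).natDegree =
      f.natDegree := by rw [← f.as_sum_range_C_mul_X_pow]
    rw [hd]
    have h : i + (f.natDegree - i) = f.natDegree := by
      have := Finset.mem_range.1 hi
      omega
    have e : y ^ f.natDegree = y ^ i * y ^ (f.natDegree - i) := by rw [← pow_add, h]
    rw [e]
    simp only [C_mul, C_pow, mul_pow]
    ring
  rw [h2, h3, ← Finset.sum_sub_distrib]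
  refine Finset.sum_congr rfl fun i _ => ?_
  ring

end Pool.Agent.H41K
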