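import Pool.Agent.H41K.B

/-!
# Torsion points
-/

set_option autoImplicit false
set_option linter.all false

open Polynomial
open scoped IntermediateField

namespace Pool.Agent.H41K

open Pool.Agent.N874.WG Pool.Agent.H76K

/-- torsion points -/
def IsTor {K : Type} [CommRing K] (f : ℤ[X]) (w : K) : Prop :=
  aeval w f ≠ 0 ∧ ∃ n : ℕ, 0 < n ∧ ∀ g h : ℤ[X], g.Monic → h.Monic → g ∣ f → h ∣ f →
    aeval w g ^ (n * h.natDegree) = aeval w h ^ (n * g.natDegree)

theorem cj_isTor {K L : Type} [CommRing K] [CommRing L] {f : ℤ[X]} {z : K} {r : L} (h : Cj z r)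
    (hz : IsTor f z) : IsTor f r := by
  obtain ⟨h0, n, hn, h1⟩ := hz
  refine ⟨fun h2 => h0 ((h f).2 h2), n, hn, fun g g' hg hg' hgf hgf' => ?_⟩
  have h2 := (h (g ^ (n * g'.natDegree) - g' ^ (n * g.natDegree))).1 (by
    rw [map_sub, map_pow, map_pow, h1 g g' hg hg' hgf hgf', sub_self])
  rw [map_sub, map_pow, map_pow, sub_eq_zero] at h2
  exact h2

theorem IsTor.alg {K : Type} [Field K] [CharZero K] {f g h : ℤ[X]} {w : K} (hw : IsTor f w)
    (hg : g.Monic) (hh : h.Monic) (hgf : g ∣ f) (hhf : h ∣ f) (hd : 0 < h.natDegree) {α : ℂ}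
    (h1 : aeval α g = 0) (h2 : aeval α h ≠ 0) : IsIntegral ℚ w := by
  obtain ⟨-, n, hn, h3⟩ := hw
  have h4 := h3 g h hg hh hgf hhf
  let Q : ℤ[X] := g ^ (n * h.natDegree) - h ^ (n * g.natDegree)
  have hQ : Q ≠ 0 := by
    intro h0
    have h5 : aeval α Q = 0 := by rw [h0, map_zero]
    have h6 : aeval α Q = - (aeval α h) ^ (n * g.natDegree) := by
      simp only [Q]
      rw [map_sub, map_pow, map_pow, h1, zero_pow (Nat.mul_pos hn hd).ne', zero_sub]
    rw [h6, neg_eq_zero] at h5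
    exact pow_ne_zero _ h2 h5
  rw [← isAlgebraic_iff_isIntegral]
  refine ⟨Q.map (algebraMap ℤ ℚ), ?_, ?_⟩
  · exact (Polynomial.map_ne_zero_iff (algebraMap ℤ ℚ).injective_int).2 hQ
  · rw [aeval_map_algebraMap]
    simp only [Q]
    rw [map_sub, map_pow, map_pow, h4, sub_self]

theorem exists_complex {K : Type} [Field K] [CharZero K] {f : ℤ[X]} {z : K} (h : IsTor f z)
    (hz : IsIntegral ℚ z) : ∃ w : ℂ, IsTor f w ∧ Cj z w := by
  obtain ⟨r, hr⟩ := IsAlgClosed.exists_aeval_eq_zero ℂ (minpoly ℚ z)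
    (minpoly.degree_pos hz).ne'
  have hc := cj_of hz hr
  exact ⟨r, cj_isTor hc h, hc⟩

theorem tor_norm {f g h : ℤ[X]} {w : ℂ} (hw : IsTor f w) (hg : g.Monic) (hh : h.Monic)
    (hgf : g ∣ f) (hhf : h ∣ f) :
    ‖aeval w g‖ ^ h.natDegree = ‖aeval w h‖ ^ g.natDegree := by
  obtain ⟨-, n, hn, h1⟩ := hw
  have h2 := congrArg norm (h1 g h hg hh hgf hhf)
  rw [norm_pow, norm_pow, mul_comm n, mul_comm n, pow_mul, pow_mul] at h2
  exact (pow_left_inj₀ (by positivity) (by positivity) hn.ne').1 h2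

theorem conj_aeval (r : ℂ) (q : ℤ[X]) :
    aeval ((starRingEnd ℂ) r) q = (starRingEnd ℂ) (aeval r q) := by
  have := Polynomial.hom_eval₂ q (algebraMap ℤ ℂ) (starRingEnd ℂ) r
  rw [aeval_def, aeval_def, this]
  congr 1
  ext a
  simp

theorem conj_pow {f g h : ℤ[X]} {w : ℂ} (hw : IsTor f w) (hg : g.Monic) (hh : h.Monic)
    (hgf : g ∣ f) (hhf : h ∣ f) :
    aeval w (g ^ h.natDegree) * aeval ((starRingEnd ℂ) w) (g ^ h.natDegree) =
      aeval w (h ^ g.natDegree) * aeval ((starRingEnd ℂ) w) (h ^ g.natDegree) := by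
  have h1 := tor_norm hw hg hh hgf hhf
  rw [conj_aeval, conj_aeval, Complex.mul_conj, Complex.mul_conj, Complex.normSq_eq_norm_sq,
    Complex.normSq_eq_norm_sq, map_pow, map_pow, norm_pow, norm_pow, h1]

/-- three components -/
def Three (f g h k : ℤ[X]) : Prop :=
  g.Monic ∧ h.Monic ∧ k.Monic ∧ g ∣ f ∧ h ∣ f ∧ k ∣ f ∧ 0 < h.natDegree ∧ 0 < k.natDegree ∧
    (∀ z : ℂ, aeval z h = 0 → aeval z k ≠ 0) ∧
    ∃ α : ℂ, aeval α g = 0 ∧ aeval α h ≠ 0 ∧ aeval α k ≠ 0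

/-- the resultant for three components -/
noncomputable def R3 (g h k : ℤ[X]) : ℤ[X] :=
  Rs (g.natDegree * h.natDegree) (g.natDegree * k.natDegree) (g ^ h.natDegree) (h ^ g.natDegree)
    (g ^ k.natDegree) (k ^ g.natDegree)

theorem pow_deg {g : ℤ[X]} (hg : g.Monic) (b : ℕ) : (g ^ b).natDegree = g.natDegree * b := by
  rw [hg.natDegree_pow, mul_comm]

theorem R3_natDegree {g h k : ℤ[X]} (hg : g.Monic) (hh : h.Monic) (hk : k.Monic) :
    (R3 g h k).natDegree ≤ 2 * (g.natDegree ^ 2 * h.natDegree * k.natDegree) := by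
  have e : 2 * (g.natDegree ^ 2 * h.natDegree * k.natDegree) =
      2 * ((g.natDegree * h.natDegree) * (g.natDegree * k.natDegree)) := by ring
  rw [e]
  refine Rs_natDegree ?_ ?_ ?_ ?_
  · rw [pow_deg hg]
  · rw [pow_deg hh, mul_comm]
  · rw [pow_deg hg]
  · rw [pow_deg hk, mul_comm]

theorem deg_pos {g : ℤ[X]} (hg : g.Monic) {α : ℂ} (h1 : aeval α g = 0) : 0 < g.natDegree := by
  rw [Nat.pos_iff_ne_zero]
  intro h0
  rw [eq_one_of_monic_natDegree_zero hg h0, map_one] at h1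
  exact one_ne_zero h1

theorem tor_root {f g h k : ℤ[X]} {w : ℂ} (hw : IsTor f w) (hg : g.Monic) (hh : h.Monic)
    (hk : k.Monic) (hgf : g ∣ f) (hhf : h ∣ f) (hkf : k ∣ f) (hd : 0 < g.natDegree)
    (hd' : 0 < h.natDegree) : aeval w (R3 g h k) = 0 := by
  unfold R3
  refine Rs_root (Nat.mul_pos hd hd') ?_ ?_ ?_ ?_ (w := (starRingEnd ℂ) w)
    (conj_pow hw hg hh hgf hhf) (conj_pow hw hg hk hgf hkf)
  · rw [pow_deg hg]
  · rw [pow_deg hh, mul_comm]
  · rw [pow_deg hg]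
  · rw [pow_deg hk, mul_comm]

theorem R3_ne {g h k : ℤ[X]} (hg : g.Monic) (hh : h.Monic) (hk : k.Monic) (hd : 0 < h.natDegree)
    (hd' : 0 < k.natDegree) (hc : ∀ z : ℂ, aeval z h = 0 → aeval z k ≠ 0) {α : ℂ}
    (h1 : aeval α g = 0) (h2 : aeval α h ≠ 0) (h3 : aeval α k ≠ 0) : R3 g h k ≠ 0 := by
  have hg0 := deg_pos hg h1
  unfold R3
  refine Rs_ne (α := α) (hh.pow _) (hk.pow _) ?_ ?_ ?_ ?_ ?_ ?_ ?_
  · rw [pow_deg hh, mul_comm]
  · rw [pow_deg hk, mul_comm]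
  · intro z hz
    rw [map_pow] at hz ⊢
    exact pow_ne_zero _ (hc z (pow_eq_zero_iff hg0.ne' |>.1 hz))
  · rw [map_pow, h1, zero_pow hd.ne']
  · rw [map_pow, h1, zero_pow hd'.ne']
  · rw [map_pow]; exact pow_ne_zero _ h2
  · rw [map_pow]; exact pow_ne_zero _ h3

theorem Three.ne {f g h k : ℤ[X]} (t : Three f g h k) : R3 g h k ≠ 0 := by
  obtain ⟨hg, hh, hk, -, -, -, hd, hd', hc, α, h1, h2, h3⟩ := t
  exact R3_ne hg hh hk hd hd' hc h1 h2 h3

theorem Three.root {K : Type} [Field K] [CharZero K] {f g h k : ℤ[X]} (t : Three f g h k) {w : K}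
    (hw : IsTor f w) : aeval w (R3 g h k) = 0 := by
  obtain ⟨hg, hh, hk, hgf, hhf, hkf, hd, hd', hc, α, h1, h2, h3⟩ := t
  obtain ⟨r, hr, hcj⟩ := exists_complex hw (hw.alg hg hh hgf hhf hd h1 h2)
  exact (hcj _).2 (tor_root hr hg hh hk hgf hhf hkf (deg_pos hg h1) hd)

/-- roots of an integral polynomial -/
theorem card_roots_le {K : Type} [Field K] [CharZero K] {R : ℤ[X]} (hR : R ≠ 0) (S : Set K)
    (hS : ∀ z ∈ S, aeval z R = 0) : S.Finite ∧ S.ncard ≤ R.natDegree := by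
  classical
  have hRm : (R.map (algebraMap ℤ K)) ≠ 0 :=
    (Polynomial.map_ne_zero_iff (algebraMap ℤ K).injective_int).2 hR
  have hsub : S ⊆ ((R.map (algebraMap ℤ K)).roots.toFinset : Set K) := by
    intro w hw
    rw [Finset.mem_coe, Multiset.mem_toFinset, mem_roots hRm, IsRoot.def, eval_map_algebraMap]
    exact hS w hw
  refine ⟨(Finset.finite_toSet _).subset hsub, ?_⟩
  refine (Set.ncard_le_ncard hsub (Finset.finite_toSet _)).trans ?_
  rw [Set.ncard_coe_finset]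
  exact (Multiset.toFinset_card_le _).trans ((card_roots' _).trans natDegree_map_le)

section padic

variable {p : ℕ} [Fact p.Prime]

theorem coe_hom (g : ℤ[X]) (x y : ℤ_[p]) : ((hom g x y : ℤ_[p]) : ℚ_[p]) = hom g (x : ℚ_[p]) y :=
  hom_map (PadicInt.Coe.ringHom (p := p)) g x y

/-- the points of level one are torsion points -/
theorem isTor_level {f : ℤ[X]} {x y s : ℤ_[p]} {n : ℕ} {t : ℚ_[p]} (hy : y ≠ 0)
    (ht : t * y = x) (hu : IsUnit (hom f x y)) (hn : 0 < n) (hs : IsUnit s)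
    (ha : Approx p f (C s * (C x - C y * X) ^ n)) : IsTor f t := by
  have hy' : (y : ℚ_[p]) ≠ 0 := fun h => hy (PadicInt.ext (by rw [h]; rfl))
  have key : ∀ g : ℤ[X], ((hom g x y : ℤ_[p]) : ℚ_[p]) = (y : ℚ_[p]) ^ g.natDegree * aeval t g := by
    intro g
    rw [coe_hom, ← ht, hom_mul]
  refine ⟨?_, 2 * n, by omega, ?_⟩
  · intro h0
    have h1 := key f
    rw [h0, mul_zero] at h1
    have h2 : hom f x y = 0 := PadicInt.ext (by rw [h1]; rfl)
    rw [h2] at hu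
    exact not_isUnit_zero hu
  · intro g h hg hh hgf hhf
    have h1 := congrArg (fun z : ℤ_[p] => (z : ℚ_[p])) (rel hg hgf hh hhf hs ha)
    simp only [PadicInt.coe_pow] at h1
    rw [key, key, mul_pow, mul_pow, ← pow_mul, ← pow_mul] at h1
    have e : g.natDegree * (2 * n * h.natDegree) = h.natDegree * (2 * n * g.natDegree) := by ring
    rw [e] at h1
    exact mul_left_cancel₀ (pow_ne_zero _ hy') h1

end padic

/-- the order of a root of unity in the field generated by a number of small degree -/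
theorem order_le {K : Type} [Field K] [CharZero K] {z u : K} {R : ℤ[X]} (hR : R ≠ 0)
    (hz : aeval z R = 0) {D : ℕ} (hD : R.natDegree ≤ D) (hu : u ∈ ℚ⟮z⟯) {n : ℕ} (hn : 0 < n)
    (h : u ^ n = 1) : (orderOf u).totient ≤ D := by
  have hRQ : (R.map (algebraMap ℤ ℚ)) ≠ 0 :=
    (Polynomial.map_ne_zero_iff (algebraMap ℤ ℚ).injective_int).2 hR
  have hzQ : IsIntegral ℚ z := by
    rw [← isAlgebraic_iff_isIntegral]
    exact ⟨R.map (algebraMap ℤ ℚ), hRQ, by rw [aeval_map_algebraMap]; exact hz⟩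
  have hpos : 0 < orderOf u :=
    orderOf_pos_iff.2 (isOfFinOrder_iff_pow_eq_one.2 ⟨n, hn, h⟩)
  have hprim := IsPrimitiveRoot.orderOf u
  have h1 := hprim.totient_le_degree_minpoly
  have hint : IsIntegral ℤ u := hprim.isIntegral hpos
  have h2 : (minpoly ℤ u).natDegree = (minpoly ℚ u).natDegree := by
    rw [minpoly.isIntegrallyClosed_eq_field_fractions' ℚ hint, (minpoly.monic hint).natDegree_map]
  haveI : FiniteDimensional ℚ ℚ⟮z⟯ := IntermediateField.adjoin.finiteDimensional hzQ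
  have h3 : (minpoly ℚ u).natDegree ≤ Module.finrank ℚ ℚ⟮z⟯ := by
    have h4 : u = algebraMap ℚ⟮z⟯ K ⟨u, hu⟩ := rfl
    rw [h4, minpoly.algebraMap_eq (algebraMap ℚ⟮z⟯ K).injective]
    exact minpoly.natDegree_le _
  rw [IntermediateField.adjoin.finrank hzQ] at h3
  have h5 : (minpoly ℚ z).natDegree ≤ R.natDegree := by
    have h6 : minpoly ℚ z ∣ R.map (algebraMap ℤ ℚ) := by
      apply minpoly.dvd
      rw [aeval_map_algebraMap]
      exact hz
    exact (natDegree_le_of_dvd h6 hRQ).trans natDegree_map_le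
  omega

/-- numbers with a small value of the totient function divide a factorial -/
theorem dvd_fact {m D : ℕ} (hm : 0 < m) (h : m.totient ≤ D) : m ∣ (2 * D).factorial := by
  rw [Nat.dvd_iff_prime_pow_dvd_dvd]
  intro q k hq hk
  rcases Nat.eq_zero_or_pos k with rfl | hk0
  · simp
  apply Nat.dvd_factorial (pow_pos hq.pos k)
  have h1 : (q ^ k).totient ≤ D := by
    refine (Nat.le_of_dvd (Nat.totient_pos.2 hm) (Nat.totient_dvd_of_dvd hk)).trans h
  rw [Nat.totient_prime_pow hq hk0] at h1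
  obtain ⟨j, rfl⟩ : ∃ j, k = j + 1 := ⟨k - 1, by omega⟩
  have h2 : j + 1 - 1 = j := by omega
  rw [h2] at h1
  have h3 : q ≤ 2 * (q - 1) := by have := hq.two_le; omega
  calc q ^ (j + 1) = q ^ j * q := pow_succ _ _
    _ ≤ q ^ j * (2 * (q - 1)) := by gcongr
    _ = 2 * (q ^ j * (q - 1)) := by ring
    _ ≤ 2 * D := by omega

theorem aeval_mem {K : Type} [Field K] [CharZero K] (z : K) (Q : ℤ[X]) : aeval z Q ∈ ℚ⟮z⟯ := by
  have h4 : aeval z Q = algebraMap ℚ⟮z⟯ K (aeval (IntermediateField.AdjoinSimple.gen ℚ z) Q) := by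
    rw [← aeval_algebraMap_apply, IntermediateField.AdjoinSimple.algebraMap_gen]
  rw [h4]
  exact (aeval (IntermediateField.AdjoinSimple.gen ℚ z) Q).2

/-- powers of bounded exponent -/
theorem pow_fact {K : Type} [Field K] [CharZero K] {z : K} {R : ℤ[X]} (hR : R ≠ 0)
    (hz : aeval z R = 0) {D : ℕ} (hD : R.natDegree ≤ D) {G H : ℤ[X]} {n : ℕ} (hn : 0 < n)
    (h : aeval z G ^ n = aeval z H ^ n) (hH : aeval z H ≠ 0) :
    aeval z G ^ (2 * D).factorial = aeval z H ^ (2 * D).factorial := by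
  have hu : aeval z G / aeval z H ∈ ℚ⟮z⟯ := div_mem (aeval_mem z G) (aeval_mem z H)
  have h1 : (aeval z G / aeval z H) ^ n = 1 := by
    rw [div_pow, h, div_self (pow_ne_zero _ hH)]
  have hpos : 0 < orderOf (aeval z G / aeval z H) :=
    orderOf_pos_iff.2 (isOfFinOrder_iff_pow_eq_one.2 ⟨n, hn, h1⟩)
  have h2 := orderOf_dvd_iff_pow_eq_one.1 (dvd_fact hpos (order_le hR hz hD hu hn h1))
  rw [div_pow, div_eq_one_iff_eq (pow_ne_zero _ hH)] at h2
  exact h2

end Pool.Agent.H41K
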