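import Pool.Agent.H41K.C

/-!
# Counting triples of polynomials with a torsion point
-/

set_option autoImplicit false
set_option linter.all false

open Polynomial
open scoped Classical

namespace Pool.Agent.H41K

/-- the monic polynomial with the lower coefficients `c` -/
noncomputable def mo {a : ℕ} (c : Fin a → ℤ) : ℤ[X] := X ^ a + ∑ i : Fin a, C (c i) * X ^ (i : ℕ)

theorem mo_low {a : ℕ} (c : Fin a → ℤ) : (∑ i : Fin a, C (c i) * X ^ (i : ℕ) : ℤ[X]).degree < a := by
  refine (degree_sum_le _ _).trans_lt ?_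
  rw [Finset.sup_lt_iff (by exact WithBot.bot_lt_coe a)]
  intro i _
  refine (degree_C_mul_X_pow_le _ _).trans_lt ?_
  exact_mod_cast i.2

theorem mo_monic {a : ℕ} (c : Fin a → ℤ) : (mo c).Monic := monic_X_pow_add (mo_low c)

theorem mo_natDegree {a : ℕ} (c : Fin a → ℤ) : (mo c).natDegree = a := by
  unfold mo
  rw [natDegree_add_eq_left_of_degree_lt]
  · simp
  · rw [degree_X_pow]
    exact mo_low c

theorem aeval_mo {a : ℕ} (c : Fin a → ℤ) (w : ℂ) :
    aeval w (mo c) = w ^ a + ∑ i : Fin a, (c i : ℂ) * w ^ (i : ℕ) := by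
  unfold mo
  rw [map_add, map_pow, aeval_X, map_sum]
  congr 1
  refine Finset.sum_congr rfl fun i _ => ?_
  simp

/-- the coefficients of absolute value at most `H` -/
noncomputable def bx (a H : ℕ) : Finset (Fin a → ℤ) := Fintype.piFinset fun _ => Finset.Icc (-(H : ℤ)) H

theorem card_bx (a H : ℕ) : (bx a H).card = (2 * H + 1) ^ a := by
  unfold bx
  rw [Fintype.card_piFinset_const, Int.card_Icc]
  congr 1
  omega

/-- one condition -/
theorem card_cond (b H : ℕ) (w ζ : ℂ) :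
    ((bx (b + 1) H).filter fun d => aeval w (mo d) = ζ).card ≤ (2 * H + 1) ^ b := by
  rw [← card_bx]
  refine Finset.card_le_card_of_injOn (fun d i => d i.succ) ?_ ?_
  · intro d hd
    have h1 := (Finset.mem_filter.1 (Finset.mem_coe.1 hd)).1
    rw [bx, Fintype.mem_piFinset] at h1
    rw [Finset.mem_coe, bx, Fintype.mem_piFinset]
    exact fun i => h1 i.succ
  · intro d hd e he hde
    have h1 := (Finset.mem_filter.1 (Finset.mem_coe.1 hd)).2
    have h2 := (Finset.mem_filter.1 (Finset.mem_coe.1 he)).2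
    rw [aeval_mo, Fin.sum_univ_succ] at h1 h2
    have h3 : ∀ i : Fin b, d i.succ = e i.succ := fun i => congrFun hde i
    have h4 : (d 0 : ℂ) = e 0 := by
      simp only [h3] at h1
      have h5 := h1.trans h2.symm
      simpa using h5
    funext i
    refine Fin.cases ?_ (fun j => h3 j) i
    exact_mod_cast h4

theorem exists_root {a : ℕ} (ha : 0 < a) (c : Fin a → ℤ) : ∃ α : ℂ, aeval α (mo c) = 0 := by
  obtain ⟨α, hα⟩ := IsAlgClosed.exists_aeval_eq_zero ℂ ((mo c).map (algebraMap ℤ ℚ)) (by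
    rw [(mo_monic c).degree_map, degree_eq_natDegree (mo_monic c).ne_zero, mo_natDegree]
    exact_mod_cast ha.ne')
  exact ⟨α, by rwa [aeval_map_algebraMap] at hα⟩

/-- the exponent -/
def NN (a b c : ℕ) : ℕ := (2 * (2 * (a ^ 2 * b * c))).factorial

/-- the conditions on the third component, for given first and second ones -/
theorem exists_conds (a b c : ℕ) (ha : 0 < a) (hb : 0 < b) (hc : 0 < c) (g h : ℤ[X])
    (hg : g.Monic) (hh : h.Monic) (hga : g.natDegree = a) (hhb : h.natDegree = b) {α : ℂ}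
    (hα : aeval α g = 0) (hα' : aeval α h ≠ 0) :
    ∃ T : Finset (ℂ × ℂ), T.card ≤ 1 + b + a ^ 2 * b * NN a b c ^ 2 ∧
      ∀ k : ℤ[X], k.Monic → k.natDegree = c → (∃ w : ℂ, IsTor (g * h * k) w) →
        ∃ t ∈ T, aeval t.1 k = t.2 := by
  set N := NN a b c with hN
  have hNpos : 0 < N := Nat.factorial_pos _
  -- the zeros of the second component
  let B : Finset ℂ := (h.map (algebraMap ℤ ℂ)).roots.toFinset
  have hB : B.card ≤ b := by
    refine (Multiset.toFinset_card_le _).trans ((card_roots' _).trans ?_)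
    rw [hh.natDegree_map, hhb]
  have hBm : ∀ w : ℂ, aeval w h = 0 → w ∈ B := by
    intro w hw
    rw [Multiset.mem_toFinset, mem_roots (hh.map _).ne_zero, IsRoot.def,
      eval_map_algebraMap, hw]
  -- the conditions
  let Q : ℂ[X] := g.map (algebraMap ℤ ℂ) ^ (b * N) - h.map (algebraMap ℤ ℂ) ^ (a * N)
  have hQ0 : Q ≠ 0 := by
    intro h0
    have h1 : eval α Q = 0 := by rw [h0, eval_zero]
    simp only [Q] at h1
    rw [eval_sub, eval_pow, eval_pow, eval_map_algebraMap, eval_map_algebraMap, hα,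
      zero_pow (Nat.mul_pos hb hNpos).ne', zero_sub, neg_eq_zero] at h1
    exact pow_ne_zero _ hα' h1
  have hQd : Q.natDegree ≤ a * b * N := by
    refine (natDegree_sub_le _ _).trans (max_le ?_ ?_)
    · rw [(hg.map _).natDegree_pow, hg.natDegree_map, hga]
      apply le_of_eq; ring
    · rw [(hh.map _).natDegree_pow, hh.natDegree_map, hhb]
      apply le_of_eq; ring
  let Z : Finset ℂ := Q.roots.toFinset
  have hZ : Z.card ≤ a * b * N := (Multiset.toFinset_card_le _).trans ((card_roots' _).trans hQd)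
  have hZm : ∀ w : ℂ, aeval w g ^ (b * N) = aeval w h ^ (a * N) → w ∈ Z := by
    intro w hw
    rw [Multiset.mem_toFinset, mem_roots hQ0, IsRoot.def, eval_sub, eval_pow, eval_pow,
      eval_map_algebraMap, eval_map_algebraMap, hw, sub_self]
  let M : ℂ → Finset ℂ := fun w => (nthRoots (a * N) (aeval w g ^ (c * N))).toFinset
  have hM : ∀ w, (M w).card ≤ a * N := fun w =>
    (Multiset.toFinset_card_le _).trans (card_nthRoots (a * N) _)
  have hMm : ∀ w ζ : ℂ, ζ ^ (a * N) = aeval w g ^ (c * N) → ζ ∈ M w := by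
    intro w ζ hζ
    rw [Multiset.mem_toFinset, mem_nthRoots (Nat.mul_pos ha hNpos)]
    exact hζ
  let T : Finset (ℂ × ℂ) := insert (α, 0) (B.image (fun w => (w, (0 : ℂ))) ∪
    Z.biUnion fun w => (M w).image fun ζ => (w, ζ))
  have hT : T.card ≤ 1 + b + a ^ 2 * b * N ^ 2 := by
    have h1 : (Z.biUnion fun w => (M w).image fun ζ => (w, ζ)).card ≤ a ^ 2 * b * N ^ 2 := by
      refine Finset.card_biUnion_le.trans ?_
      refine (Finset.sum_le_sum fun w _ => Finset.card_image_le.trans (hM w)).trans ?_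
      rw [Finset.sum_const, smul_eq_mul]
      refine (Nat.mul_le_mul_right _ hZ).trans ?_
      apply le_of_eq; ring
    have h2 : (B.image (fun w => (w, (0 : ℂ)))).card ≤ b := Finset.card_image_le.trans hB
    have h3 := Finset.card_union_le (B.image (fun w => (w, (0 : ℂ))))
      (Z.biUnion fun w => (M w).image fun ζ => (w, ζ))
    have h4 := Finset.card_insert_le (α, (0 : ℂ)) (B.image (fun w => (w, (0 : ℂ))) ∪
      Z.biUnion fun w => (M w).image fun ζ => (w, ζ))
    change T.card ≤ _ at h4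
    omega
  refine ⟨T, hT, ?_⟩
  intro k hk hkc hw
  obtain ⟨w, hw⟩ := hw
  by_cases h0 : aeval α k = 0
  · exact ⟨(α, 0), Finset.mem_insert_self _ _, h0⟩
  by_cases h0' : ∃ β : ℂ, aeval β h = 0 ∧ aeval β k = 0
  · obtain ⟨β, h1, h2⟩ := h0'
    exact ⟨(β, 0), Finset.mem_insert_of_mem (Finset.mem_union_left _
      (Finset.mem_image.2 ⟨β, hBm β h1, rfl⟩)), h2⟩
  · push Not at h0'
    have hgf : g ∣ g * h * k := Dvd.intro (h * k) (by ring)
    have hhf : h ∣ g * h * k := Dvd.intro (g * k) (by ring)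
    have hkf : k ∣ g * h * k := Dvd.intro (g * h) (by ring)
    have hc0 : 0 < k.natDegree := by rw [hkc]; exact hc
    have hR : R3 g h k ≠ 0 := R3_ne hg hh hk
      (by rw [hhb]; exact hb) hc0 h0' hα hα' h0
    have hR0 := tor_root hw hg hh hk hgf hhf hkf
      (by rw [hga]; exact ha) (by rw [hhb]; exact hb)
    have hD := R3_natDegree hg hh hk
    rw [hga, hhb, hkc] at hD
    obtain ⟨hf0, n, hn, h1⟩ := hw
    have hh0 : aeval w h ≠ 0 := by
      intro h2
      apply hf0
      rw [map_mul, map_mul, h2, mul_zero, zero_mul]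
    have hk0 : aeval w k ≠ 0 := by
      intro h2
      apply hf0
      rw [map_mul, h2, mul_zero]
    have r1 : aeval w (g ^ b) ^ n = aeval w (h ^ a) ^ n := by
      have e := h1 g h hg hh hgf hhf
      rw [hga, hhb] at e
      rw [map_pow, map_pow, ← pow_mul, ← pow_mul, mul_comm b, mul_comm a]
      exact e
    have r2 : aeval w (g ^ c) ^ n = aeval w (k ^ a) ^ n := by
      have e := h1 g k hg hk hgf hkf
      rw [hga, hkc] at e
      rw [map_pow, map_pow, ← pow_mul, ← pow_mul, mul_comm c, mul_comm a]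
      exact e
    have s1 := pow_fact hR hR0 hD hn r1 (by rw [map_pow]; exact pow_ne_zero _ hh0)
    have s2 := pow_fact hR hR0 hD hn r2 (by rw [map_pow]; exact pow_ne_zero _ hk0)
    rw [map_pow, map_pow, ← pow_mul, ← pow_mul] at s1 s2
    exact ⟨(w, aeval w k), Finset.mem_insert_of_mem (Finset.mem_union_right _
      (Finset.mem_biUnion.2 ⟨w, hZm w s1, Finset.mem_image.2 ⟨_, hMm w _ s2.symm, rfl⟩⟩)), rfl⟩

/-- the third components, for given first and second ones -/
theorem card_fib (a b c H : ℕ) (ha : 0 < a) (hb : 0 < b) (g : Fin a → ℤ) (h : Fin b → ℤ) {α : ℂ}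
    (hα : aeval α (mo g) = 0) (hα' : aeval α (mo h) ≠ 0) :
    ((bx (c + 1) H).filter fun k => ∃ w : ℂ, IsTor (mo g * mo h * mo k) w).card ≤
      (1 + b + a ^ 2 * b * NN a b (c + 1) ^ 2) * (2 * H + 1) ^ c := by
  obtain ⟨T, hT, hk⟩ := exists_conds a b (c + 1) ha hb (Nat.succ_pos c) (mo g) (mo h)
    (mo_monic g) (mo_monic h) (mo_natDegree g) (mo_natDegree h) hα hα'
  have hsub : ((bx (c + 1) H).filter fun k => ∃ w : ℂ, IsTor (mo g * mo h * mo k) w) ⊆
      T.biUnion fun t => (bx (c + 1) H).filter fun k => aeval t.1 (mo k) = t.2 := by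
    intro k hk'
    obtain ⟨hk1, hw⟩ := Finset.mem_filter.1 hk'
    obtain ⟨t, ht, h1⟩ := hk (mo k) (mo_monic k) (mo_natDegree k) hw
    rw [Finset.mem_biUnion]
    exact ⟨t, ht, Finset.mem_filter.2 ⟨hk1, h1⟩⟩
  refine (Finset.card_le_card hsub).trans (Finset.card_biUnion_le.trans ?_)
  refine (Finset.sum_le_sum fun t _ => card_cond c H t.1 t.2).trans ?_
  rw [Finset.sum_const, smul_eq_mul]
  exact Nat.mul_le_mul_right _ hT

/-- shifts of the third component -/
theorem card_shift (a b c : ℕ) (g h k : ℤ[X]) (hg : g.Monic) (hh : h.Monic) (hk : k.Monic)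
    (hga : g.natDegree = a) (hhb : h.natDegree = b) (hkc : k.natDegree = c) (hb : 0 < b)
    (hc : 0 < c) {α : ℂ} (hα : aeval α g = 0) (hα' : aeval α h ≠ 0) :
    {m : ℤ | ∃ w : ℂ, IsTor (g * h * (k + C m)) w}.Finite ∧
      {m : ℤ | ∃ w : ℂ, IsTor (g * h * (k + C m)) w}.ncard ≤
        1 + b + a ^ 2 * b * NN a b c ^ 2 := by
  have ha : 0 < a := by rw [← hga]; exact deg_pos hg hα
  obtain ⟨T, hT, hT'⟩ := exists_conds a b c ha hb hc g h hg hh hga hhb hα hα'
  let S : Set ℤ := {m : ℤ | ∃ w : ℂ, IsTor (g * h * (k + C m)) w}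
  have hS : ∀ m ∈ S, ∃ t ∈ T, aeval t.1 k + (m : ℂ) = t.2 := by
    intro m hm
    have hdeg : (C m : ℤ[X]).degree < k.degree := by
      refine (degree_C_le).trans_lt ?_
      rw [← natDegree_pos_iff_degree_pos, hkc]
      exact hc
    obtain ⟨t, ht, h1⟩ := hT' (k + C m) (hk.add_of_left hdeg) (by rw [natDegree_add_C, hkc]) hm
    refine ⟨t, ht, ?_⟩
    rw [map_add, aeval_C] at h1
    simpa using h1
  let F : ℤ → ℂ × ℂ := fun m => if hm : m ∈ S then (hS m hm).choose else (0, 0)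
  have hF : ∀ m ∈ S, F m ∈ T ∧ aeval (F m).1 k + (m : ℂ) = (F m).2 := by
    intro m hm
    have e : F m = (hS m hm).choose := dif_pos hm
    rw [e]
    exact (hS m hm).choose_spec
  have hinj : Set.InjOn F S := by
    intro m hm m' hm' he
    have h1 := (hF m hm).2
    have h2 := (hF m' hm').2
    rw [he] at h1
    have h3 : (m : ℂ) = m' := by
      have h4 := h1.trans h2.symm
      exact add_left_cancel h4
    exact_mod_cast h3
  have hmaps : Set.MapsTo F S (T : Set (ℂ × ℂ)) := fun m hm => (hF m hm).1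
  have hfin : S.Finite := Set.Finite.of_injOn hmaps hinj (Finset.finite_toSet T)
  refine ⟨hfin, ?_⟩
  refine (Set.ncard_le_ncard_of_injOn F hmaps hinj (Finset.finite_toSet T)).trans ?_
  rw [Set.ncard_coe_finset]
  exact hT

/-- the second and third components -/
theorem card_fib2 (a b c H : ℕ) (ha : 0 < a) (g : Fin a → ℤ) :
    ((bx (b + 1) H ×ˢ bx (c + 1) H).filter fun q => ∃ w : ℂ,
      IsTor (mo g * mo q.1 * mo q.2) w).card ≤
      (2 + (b + 1) + a ^ 2 * (b + 1) * NN a (b + 1) (c + 1) ^ 2) * (2 * H + 1) ^ (b + c + 1) := by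
  obtain ⟨α, hα⟩ := exists_root ha g
  let S1 : Finset ((Fin (b + 1) → ℤ) × (Fin (c + 1) → ℤ)) :=
    ((bx (b + 1) H).filter fun h => aeval α (mo h) = 0) ×ˢ bx (c + 1) H
  let S2 : Finset ((Fin (b + 1) → ℤ) × (Fin (c + 1) → ℤ)) :=
    ((bx (b + 1) H).filter fun h => aeval α (mo h) ≠ 0).biUnion fun h =>
      ((bx (c + 1) H).filter fun k => ∃ w : ℂ, IsTor (mo g * mo h * mo k) w).image fun k => (h, k)
  have hS1 : S1.card ≤ (2 * H + 1) ^ (b + c + 1) := by
    rw [Finset.card_product, card_bx]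
    refine (Nat.mul_le_mul_right _ (card_cond b H α 0)).trans ?_
    rw [← pow_add]
    apply le_of_eq
    congr 1
  have hS2 : S2.card ≤ (1 + (b + 1) + a ^ 2 * (b + 1) * NN a (b + 1) (c + 1) ^ 2) *
      (2 * H + 1) ^ (b + c + 1) := by
    refine Finset.card_biUnion_le.trans ?_
    refine (Finset.sum_le_sum (f := fun h => (((bx (c + 1) H).filter fun k => ∃ w : ℂ,
      IsTor (mo g * mo h * mo k) w).image fun k => (h, k)).card)
      (g := fun _ => (1 + (b + 1) + a ^ 2 * (b + 1) * NN a (b + 1) (c + 1) ^ 2) *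
      (2 * H + 1) ^ c) fun h hh => ?_).trans ?_
    · exact Finset.card_image_le.trans (card_fib a (b + 1) c H ha (Nat.succ_pos b) g h hα
        (Finset.mem_filter.1 hh).2)
    · rw [Finset.sum_const, smul_eq_mul]
      refine (Nat.mul_le_mul_right _ ((Finset.card_filter_le _ _).trans
        (card_bx (b + 1) H).le)).trans ?_
      have e : b + c + 1 = (b + 1) + c := by ring
      rw [e, pow_add]
      apply le_of_eq
      ring
  have hsub : ((bx (b + 1) H ×ˢ bx (c + 1) H).filter fun q => ∃ w : ℂ,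
      IsTor (mo g * mo q.1 * mo q.2) w) ⊆ S1 ∪ S2 := by
    rintro ⟨h, k⟩ hq
    obtain ⟨h2, h3⟩ := Finset.mem_filter.1 hq
    obtain ⟨h4, h5⟩ := Finset.mem_product.1 h2
    rw [Finset.mem_union]
    by_cases h0 : aeval α (mo h) = 0
    · exact Or.inl (Finset.mem_product.2 ⟨Finset.mem_filter.2 ⟨h4, h0⟩, h5⟩)
    · refine Or.inr (Finset.mem_biUnion.2 ⟨h, Finset.mem_filter.2 ⟨h4, h0⟩,
        Finset.mem_image.2 ⟨k, Finset.mem_filter.2 ⟨h5, h3⟩, rfl⟩⟩)
  refine (Finset.card_le_card hsub).trans ((Finset.card_union_le _ _).trans ?_)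
  refine (Nat.add_le_add hS1 hS2).trans ?_
  apply le_of_eq
  ring

theorem card_triples (a b c : ℕ) (ha : 0 < a) (hb : 0 < b) (hc : 0 < c) (H : ℕ) :
    ((bx a H ×ˢ (bx b H ×ˢ bx c H)).filter fun q => ∃ w : ℂ,
      IsTor (mo q.1 * mo q.2.1 * mo q.2.2) w).card ≤
      (2 + b + a ^ 2 * b * NN a b c ^ 2) * (2 * H + 1) ^ (a + b + c - 1) := by
  obtain ⟨b, rfl⟩ : ∃ b', b = b' + 1 := ⟨b - 1, by omega⟩
  obtain ⟨c, rfl⟩ : ∃ c', c = c' + 1 := ⟨c - 1, by omega⟩
  have h1 : ((bx a H ×ˢ (bx (b + 1) H ×ˢ bx (c + 1) H)).filter fun q => ∃ w : ℂ,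
      IsTor (mo q.1 * mo q.2.1 * mo q.2.2) w) ⊆
      (bx a H).biUnion fun g => ((bx (b + 1) H ×ˢ bx (c + 1) H).filter fun q => ∃ w : ℂ,
        IsTor (mo g * mo q.1 * mo q.2) w).image fun q => (g, q) := by
    rintro ⟨g, q⟩ hq
    obtain ⟨h2, h3⟩ := Finset.mem_filter.1 hq
    obtain ⟨h4, h5⟩ := Finset.mem_product.1 h2
    rw [Finset.mem_biUnion]
    exact ⟨g, h4, Finset.mem_image.2 ⟨q, Finset.mem_filter.2 ⟨h5, h3⟩, rfl⟩⟩
  refine (Finset.card_le_card h1).trans (Finset.card_biUnion_le.trans ?_)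
  refine (Finset.sum_le_sum fun g _ => Finset.card_image_le.trans (card_fib2 a b c H ha g)).trans ?_
  rw [Finset.sum_const, smul_eq_mul, card_bx]
  have e : a + (b + 1) + (c + 1) - 1 = a + (b + c + 1) := by omega
  rw [e, pow_add]
  apply le_of_eq
  ring

end Pool.Agent.H41K
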