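import Pool.Agent.H41K.D

/-!
# Final lemmas
-/

set_option autoImplicit false
set_option linter.all false

open Polynomial
open scoped IntermediateField

namespace Pool.Agent.H41K

open Pool.Agent.N874.WG Pool.Agent.H76K

/-- torsion points of a multiple -/
theorem IsTor.dvd {K : Type} [CommRing K] {f f' : ℤ[X]} (hf : f' ∣ f) {w : K} (hw : IsTor f w) :
    IsTor f' w := by
  obtain ⟨h0, n, hn, h1⟩ := hw
  refine ⟨fun h2 => h0 ?_, n, hn, fun g h hg hh hgf hhf =>
    h1 g h hg hh (hgf.trans hf) (hhf.trans hf)⟩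
  obtain ⟨q, rfl⟩ := hf
  rw [map_mul, h2, zero_mul]

/-- if there is a torsion point then there is a complex one -/
theorem exists_tor {K : Type} [Field K] [CharZero K] {f : ℤ[X]} {z : K} (h : IsTor f z) :
    ∃ w : ℂ, IsTor f w := by
  by_cases hz : IsIntegral ℚ z
  · obtain ⟨w, hw, -⟩ := exists_complex h hz
    exact ⟨w, hw⟩
  · obtain ⟨h0, n, hn, h1⟩ := h
    have hf : f ≠ 0 := by
      rintro rfl
      exact h0 (map_zero _)
    have hQ : ∀ Q : ℤ[X], aeval z Q = 0 → Q = 0 := by
      intro Q hQ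
      by_contra hne
      apply hz
      rw [← isAlgebraic_iff_isIntegral]
      exact ⟨Q.map (algebraMap ℤ ℚ),
        (Polynomial.map_ne_zero_iff (algebraMap ℤ ℚ).injective_int).2 hne,
        by rw [aeval_map_algebraMap]; exact hQ⟩
    obtain ⟨w, hw⟩ : ∃ w : ℂ, aeval w f ≠ 0 := by
      by_contra hcon
      push Not at hcon
      have h2 := (card_roots_le (K := ℂ) hf Set.univ (fun z _ => hcon z)).1
      exact Set.infinite_univ h2
    refine ⟨w, hw, n, hn, fun g g' hg hg' hgf hgf' => ?_⟩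
    have h3 := hQ (g ^ (n * g'.natDegree) - g' ^ (n * g.natDegree)) (by
      rw [map_sub, map_pow, map_pow, h1 g g' hg hg' hgf hgf', sub_self])
    have h4 := congrArg (aeval w) h3
    rw [map_sub, map_pow, map_pow, map_zero, sub_eq_zero] at h4
    exact h4

/-- the points of three shifted components -/
theorem no_tor {f g : ℤ[X]} {m m' : ℤ} (hg : g.Monic) (hd : 0 < g.natDegree) (h1 : m ≠ 0)
    (h2 : m' ≠ 0) (h3 : m ≠ m') (hf : g * (g + C m) * (g + C m') ∣ f) (w : ℂ) : ¬ IsTor f w := by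
  intro hw
  have hdeg : ∀ c : ℤ, (C c : ℤ[X]).degree < g.degree := by
    intro c
    refine (degree_C_le).trans_lt ?_
    rw [← natDegree_pos_iff_degree_pos]
    exact hd
  have hm : ∀ c : ℤ, (g + C c).Monic := fun c => hg.add_of_left (hdeg c)
  have hn : ∀ c : ℤ, (g + C c).natDegree = g.natDegree := fun c =>
    natDegree_add_C
  have key : ∀ c : ℤ, c ≠ 0 → g + C c ∣ f → (aeval w g).re = -(c : ℝ) / 2 := by
    intro c hc hcf
    have e := tor_norm hw hg (hm c) ((Dvd.intro ((g + C m) * (g + C m')) (by ring)).trans hf) hcf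
    rw [hn] at e
    have e2 := (pow_left_inj₀ (norm_nonneg _) (norm_nonneg _) hd.ne').1 e
    rw [map_add, aeval_C] at e2
    have e3 : Complex.normSq (aeval w g) = Complex.normSq (aeval w g + algebraMap ℤ ℂ c) := by
      rw [Complex.normSq_eq_norm_sq, Complex.normSq_eq_norm_sq, e2]
    rw [Complex.normSq_apply, Complex.normSq_apply] at e3
    have e4 : (algebraMap ℤ ℂ c).re = (c : ℝ) := by simp
    have e5 : (algebraMap ℤ ℂ c).im = 0 := by simp
    rw [Complex.add_re, Complex.add_im, e4, e5, add_zero] at e3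
    have hc' : (c : ℝ) ≠ 0 := by exact_mod_cast hc
    have e6 : (c : ℝ) * (2 * (aeval w g).re + c) = 0 := by linarith
    rcases mul_eq_zero.1 e6 with h | h
    · exact absurd h hc'
    · linarith
  have k1 := key m h1 ((Dvd.intro (g * (g + C m')) (by ring)).trans hf)
  have k2 := key m' h2 ((Dvd.intro (g * (g + C m)) (by ring)).trans hf)
  have k3 : (m : ℝ) = m' := by linarith
  exact h3 (by exact_mod_cast k3)

section padic

variable {p : ℕ} [Fact p.Prime]

/-- ratios at points of level one for special primes -/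
theorem pm {f g h : ℤ[X]} {t : ℚ_[p]} (ht : IsTor f t) {R : ℤ[X]} (hR : R ≠ 0)
    (htR : aeval t R = 0) {D : ℕ} (hD : R.natDegree ≤ D) (h4 : p % 4 = 3)
    (hq : ∀ q : ℕ, q.Prime → q ≠ 2 → q ≤ D + 1 → ¬ q ∣ p - 1) (hg : g.Monic) (hgf : g ∣ f)
    (hh : h.Monic) (hhf : h ∣ f) :
    aeval t g ^ h.natDegree = aeval t h ^ g.natDegree ∨
      aeval t g ^ h.natDegree = - aeval t h ^ g.natDegree := by
  obtain ⟨h0, n, hn, h1⟩ := ht
  have hh0 : aeval t h ≠ 0 := by
    intro h2
    apply h0
    obtain ⟨q, rfl⟩ := hhf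
    rw [map_mul, h2, zero_mul]
  have hH : aeval t (h ^ g.natDegree) ≠ 0 := by rw [map_pow]; exact pow_ne_zero _ hh0
  let u : ℚ_[p] := aeval t (g ^ h.natDegree) / aeval t (h ^ g.natDegree)
  have hu : u ∈ ℚ⟮t⟯ := div_mem (aeval_mem t _) (aeval_mem t _)
  have hun : u ^ n = 1 := by
    simp only [u]
    rw [div_pow, map_pow, map_pow, ← pow_mul, ← pow_mul, mul_comm _ n, mul_comm _ n,
      h1 g h hg hh hgf hhf, div_self]
    rw [mul_comm n, pow_mul]
    exact pow_ne_zero _ (pow_ne_zero _ hh0)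
  have hnorm : ‖u‖ = 1 := by
    have e := congrArg norm hun
    have e1 : ‖(1 : ℚ_[p])‖ = 1 := norm_one
    rw [norm_pow, e1] at e
    exact (pow_eq_one_iff_of_nonneg (norm_nonneg _) hn.ne').1 e
  let ζ : ℤ_[p] := ⟨u, hnorm.le⟩
  have hζ : ζ ^ n = 1 := PadicInt.ext (by
    rw [PadicInt.coe_pow, PadicInt.coe_one]; exact hun)
  have h5 := order_le hR htR hD hu hn hun
  have h6 : orderOf u = orderOf ζ :=
    orderOf_injective (PadicInt.Coe.ringHom (p := p) : ℤ_[p] →* ℚ_[p])
      (fun a b hab => PadicInt.ext hab) ζ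
  rw [h6] at h5
  have h7 := pm_one D h4 hq hn hζ h5
  rw [← map_pow, ← map_pow]
  rcases h7 with h7 | h7
  · left
    have e : u = 1 := by
      have := congrArg (fun z : ℤ_[p] => (z : ℚ_[p])) h7
      simpa using this
    exact (div_eq_one_iff_eq hH).1 e
  · right
    have e : u = -1 := by
      have := congrArg (fun z : ℤ_[p] => (z : ℚ_[p])) h7
      simpa using this
    have e2 := (div_eq_iff hH).1 e
    rw [e2]
    ring

/-- rational points -/
theorem cj_rat {t : ℚ_[p]} {w : ℂ} (h : Cj t w) {x y : ℤ} (hw : w * y = x) : t * y = x := by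
  have h1 := (h (C y * X - C x)).2 (by
    rw [map_sub, map_mul, aeval_X, aeval_C, aeval_C]
    simp only [eq_intCast]
    rw [mul_comm, hw, sub_self])
  rw [map_sub, map_mul, aeval_X, aeval_C, aeval_C, sub_eq_zero] at h1
  simp only [eq_intCast] at h1
  rw [mul_comm]
  exact h1

end padic

end Pool.Agent.H41K
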